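import Mathlib

set_option autoImplicit false

open Complex Finset

namespace Pool.Agent.H.MP_8d8cf3_an

noncomputable def u (cp cm : ℤ →₀ ℂ) (t x : ℝ) : ℂ :=
  cp 0 + cm 0 * t + ∑ k ∈ (cp.support ∪ cm.support).erase 0,
    (cp k * exp (I * k ^ 2 * t) + cm k * exp (-I * k ^ 2 * t)) * exp (I * k * x)

def Ineq {m : ℕ} (a : Fin m → ℤ) (t x : Fin m → ℝ) (T : ℝ) : Prop :=
  ∃ α : ℝ, 0 < α ∧ ∀ cp cm : ℤ →₀ ℂ, ∑ k ∈ cp.support ∪ cm.support, (‖cp k‖ ^ 2 + ‖cm k‖ ^ 2) ≤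
    α * ∑ i, ∫ s in (0 : ℝ)..T, ‖u cp cm (t i + s) (x i - a i * s)‖ ^ 2

lemma tel (f : ℤ → ℂ) (hf : ∀ k, ‖f k‖ ≤ 1) (N : ℕ) (a : ℤ) :
    ‖∑ k ∈ range N, (f k - f (k + a))‖ ≤ 2 * |(a : ℝ)| := by
  have k : ∀ a : ℤ, ‖∑ k ∈ range N, (f (k + a) - f (k + (a + 1)))‖ ≤ 2 := fun a => by
    have := sum_range_sub' (fun k : ℕ => f (k + a)) N
    rw [sum_congr rfl fun k _ => by rw [show (k : ℤ) + (a + 1) = (k + 1 : ℕ) + a by push_cast; ring],
      this]
    linarith [norm_sub_le (f ((0 : ℕ) + a)) (f (N + a)), hf ((0 : ℕ) + a), hf (N + a)]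
  induction a using Int.induction_on with
  | zero => simp
  | succ n h =>
    have := norm_add_le (∑ k ∈ range N, (f k - f (k + n))) (∑ k ∈ range N, (f (k + n) - f (k + (n + 1))))
    rw [← sum_add_distrib] at this
    simp only [sub_add_sub_cancel] at this
    push_cast at h ⊢
    rw [abs_of_nonneg (by positivity)] at h ⊢
    linarith [k n]
  | pred n h =>
    have := norm_sub_le (∑ k ∈ range N, (f k - f (k + -n)))
      (∑ k ∈ range N, (f (k + (-n - 1)) - f (k + (-n - 1 + 1))))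
    rw [← sum_sub_distrib] at this
    simp only [sub_add_cancel, sub_sub_sub_cancel_right] at this
    push_cast at h ⊢
    have : (0 : ℝ) ≤ n := by positivity
    rw [abs_of_nonpos (by linarith)] at h ⊢
    have := k (-n - 1)
    simp only [sub_add_cancel] at this
    linarith

lemma fail {m : ℕ} (a : Fin m → ℤ) (t x : Fin m → ℝ) {T : ℝ} (hT : 0 < T) {t₀ x₀ : ℝ}
    (h : ∀ i, x i + a i * t i = x₀ + a i * t₀) : ¬Ineq a t x T := by
  rintro ⟨α, hα, H⟩
  obtain ⟨N, hN⟩ := exists_nat_gt (α * ∑ i, T * (2 * |(a i : ℝ)|) ^ 2)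
  let A : Finset ℤ := (range N).map ⟨fun k : ℕ => (k : ℤ) + 1, fun _ _ h => by simpa using h⟩
  let B : Finset ℤ := (range N).map ⟨fun k : ℕ => -((k : ℤ) + 1), fun _ _ h => by simpa using h⟩
  have hd : Disjoint A B := by
    simp only [A, B, disjoint_left, mem_map, Function.Embedding.coeFn_mk]
    rintro _ ⟨k, -, rfl⟩ ⟨l, -, h⟩
    omega
  let e : ℤ → ℂ := fun k => exp (((-(k ^ 2 * t₀ + k * x₀) : ℝ)) * I)
  let S := A.disjUnion B hd
  have h0 : 0 ∉ S := by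
    simp only [S, A, B, mem_disjUnion, mem_map, Function.Embedding.coeFn_mk]
    rintro (⟨k, -, h⟩ | ⟨l, -, h⟩) <;> omega
  let cp : ℤ →₀ ℂ := ⟨S, fun k => if k ∈ S then (if 0 < k then 1 else -1) * e k else 0, fun k => by
    split_ifs <;> simp [*, e]⟩
  have c1 : ∀ k ∈ S, cp k = (if 0 < k then 1 else -1) * e k := fun k hk => if_pos hk
  have c0 : cp 0 = 0 := if_neg h0
  have c2 : cp.support ∪ (0 : ℤ →₀ ℂ).support = S := by simp [cp]
  have := H cp 0
  rw [c2, sum_congr rfl (g := fun _ => (1 : ℝ)) fun k hk => by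
    rw [c1 k hk]; split_ifs <;> simp only [e, norm_mul, norm_exp_ofReal_mul_I] <;> simp] at this
  have b : ∀ i s, ‖u cp 0 (t i + s) (x i - a i * s)‖ ≤ 2 * |(a i : ℝ)| := fun i s => by
    refine (le_of_eq ?_).trans (tel (fun k => exp ((((k + 1) ^ 2 - a i * (k + 1)) *
      (t i + s - t₀) : ℝ) * I)) (fun k => (norm_exp_ofReal_mul_I _).le) N (a i))
    have hx : (x i : ℂ) = x₀ + a i * t₀ - a i * t i := by exact_mod_cast eq_sub_of_add_eq (h i)
    rw [u, c2, erase_eq_of_notMem h0, c0, sum_congr rfl fun k hk => by rw [c1 k hk], sum_disjUnion,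
      sum_map, sum_map, ← sum_add_distrib]
    simp only [Finsupp.coe_zero, Pi.zero_apply, zero_mul, add_zero, zero_add]
    congr 1
    refine sum_congr rfl fun k _ => ?_
    simp only [Function.Embedding.coeFn_mk, e]
    rw [if_pos (by omega), if_neg (by omega), one_mul, neg_one_mul, neg_mul, neg_mul, ← exp_add,
      ← exp_add, ← exp_add, ← exp_add, sub_eq_add_neg]
    congr 3 <;> push_cast <;> rw [hx] <;> ring
  have b2 : ∀ i, ∫ s in (0 : ℝ)..T, ‖u cp 0 (t i + s) (x i - a i * s)‖ ^ 2 ≤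
      T * (2 * |(a i : ℝ)|) ^ 2 := fun i => by
    have := intervalIntegral.norm_integral_le_of_norm_le_const (a := 0) (b := T)
      (f := fun s => ‖u cp 0 (t i + s) (x i - a i * s)‖ ^ 2) (C := (2 * |(a i : ℝ)|) ^ 2)
      fun s _ => by
        rw [Real.norm_of_nonneg (by positivity)]
        exact pow_le_pow_left₀ (norm_nonneg _) (b i s) 2
    rw [sub_zero, abs_of_pos hT, mul_comm] at this
    exact (Real.le_norm_self _).trans this
  have b3 := mul_le_mul_of_nonneg_left (sum_le_sum fun i (_ : i ∈ univ) => b2 i) hα.le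
  simp only [S, A, B, sum_const, card_disjUnion, card_map, card_range, nsmul_eq_mul, mul_one,
    Nat.cast_add] at this
  have : (0 : ℝ) ≤ N := by positivity
  linarith

theorem main : (∀ (m : ℕ) (a : Fin m → ℤ) (t x : Fin m → ℝ) (T : ℝ), 0 < T →
      (∃ t₀ x₀ : ℝ, ∀ i, x i + a i * t i = x₀ + a i * t₀) → ¬Ineq a t x T) ∧
    ¬∃ m : ℕ, 3 ≤ m ∧ ∀ a : Fin m → ℤ, a.Injective → (∀ i, a i ≠ 0) →
      ∀ (t x : Fin m → ℝ) (T : ℝ), 0 < T → Ineq a t x T :=
  ⟨fun _ a t x _ hT ⟨_, _, h⟩ => fail a t x hT h, fun ⟨m, _, h⟩ =>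
    fail (fun i : Fin m => (i : ℕ) + 1) 0 0 one_pos (t₀ := 0) (x₀ := 0) (by simp)
      (h _ (fun i j h => Fin.ext (by simpa using h)) (fun i => by omega) _ _ _ one_pos)⟩

end Pool.Agent.H.MP_8d8cf3_an
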